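import Pool.Agent.MP_e4304e_gt.Main

namespace Pool.Agent.MP_e4304e_gt.Old.PureBraidsInject

open Pool.Agent.MP_e4304e_gt

theorem result (n : ℕ) :
    ∃ ι : VirtualPureBraidGroup n → VirtualStringLink (n + 1),
      (∀ (w : List (Gen n × Bool)) (hw : braidOfWord w ∈ VirtualPureBraidGroup n),
        ∃ hD : IsGauss (gaussDiagram w),
          ι ⟨braidOfWord w, hw⟩ = Quot.mk _ ⟨gaussDiagram w, hD⟩) ∧
      Function.Injective ι :=
  main n

end Pool.Agent.MP_e4304e_gt.Old.PureBraidsInject
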